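import Pool.Agent.H685R2.STA.Any

/-!
# If the new arcs may join arbitrary vertices, the augmentation problem is NP-hard
-/

namespace Pool.Agent.Results.MP_d0804a_lc.ArbitraryArcsHard

open Pool.Agent.NPC Pool.Agent.H685R2.STA

/-- The instances with one source and `k = 1`. -/
theorem result : NPHardP (fun x : List ℕ × List (ℕ × ℕ) × ℕ × List ℕ × ℕ =>
    AnyAug (x.1, x.2.1, [x.2.2.1], x.2.2.2.1, 1, x.2.2.2.2)) :=
  hardI_one.toNPHardP

end Pool.Agent.Results.MP_d0804a_lc.ArbitraryArcsHard
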