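import Pool.Agent.H685R2.STA.Vec
import Pool.Agent.H685R2.STA.PSol
import Pool.Agent.H685R2.STA.TM

/-!
# A strongly polynomial combinatorial algorithm for `S`-`T` edge-connectivity augmentation

Given a digraph `D` (the list of its arcs), two sets `S`, `T` of vertices and a number `k`
(in binary), the algorithm `augment` computes a minimum number of new arcs from `S` to `T` making
`D` `k`-edge-connected from `S` to `T`; the output is a vector with one entry for each pair
`(s, t)`, `s ∈ S`, `t ∈ T`, `s ≠ t`.

Let `P` be the list of these pairs, `N` their number and `K₀ = |A| * |S| * |T|`.

* Large `k` (`augment`): if `x` is the optimal vector for `min k K₀` and `y` is the optimal vector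
  for the digraph without arcs and `k = 1`, then `x + (k - K₀) y` is optimal for `k`. So the number
  `k` is used in one comparison, one subtraction, and in one multiplication and one addition for
  each pair; everything else (`core`) is done for `k' = min k K₀`, which is bounded by a polynomial
  in the size of the digraph, and for `k' = 1`.
* Greedy (`build`): the arcs are chosen one after the other, such that the optimum decreases.
* The test whether the optimum is at most `B` (`dec0`): multiplicative weights. Every pair has an
  integer weight; the arcs of `D` get capacity `Z` and the pairs get capacities proportional to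
  their weights, `B * Z` units in total. If for some pair `(s, t)` a minimum `s`-`t` cut has
  capacity at most `Z * (k' - 1 / N)`, the weights of the pairs leaving this cut are multiplied by
  `1 + 1 / M` (relatively to the others), `M = 2 N k'`. If no cut is violated, the optimum is
  at most `B`, by the min-max formula of Frank and Jordan (which is reproved in the files used);
  if cuts are violated in `8 N ^ 3 k' B + 1` rounds, the optimum is larger than `B`.
* Minimum cuts (`cutL`) are found by augmenting paths.
-/

namespace Pool.Agent.Results.MP_d0804a_lc.StronglyPoly

open Pool.Agent.NPC Pool.Agent.H685R2.STA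

/-- **Strongly polynomial combinatorial `S`-`T` edge-connectivity augmentation.** -/
theorem result :
    -- the output of the algorithm `augment` is an optimal augmentation
    (∀ (D : List (ℕ × ℕ)) (S T : List ℕ) (k : ℕ), S.Nodup → T.Nodup →
      IsOpt D S T k (expand (augment D S T k))) ∧
    -- the number `k` is used only as follows: one comparison and one subtraction with the number
    -- `|A| * |S| * |T|`, and one multiplication and one addition for each entry of the output
    (∀ (D : List (ℕ × ℕ)) (S T : List ℕ) (k : ℕ), augment D S T k =
      ((core ((D, S, T), List.replicate (min k (D.length * (S.length * T.length))) ())).zip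
        (core (([], S, T), [()]))).map fun e =>
          (e.1.1, e.1.2 + (k - D.length * (S.length * T.length)) * e.2.2)) ∧
    -- the remaining part `core` (with the number `min k (|A| * |S| * |T|)` written in unary) is
    -- computed by a Turing machine in polynomial time
    Nonempty (Turing.TM2ComputableInPolyTime
      (bits : (List (ℕ × ℕ) × List ℕ × List ℕ) × List Unit → List Bool)
      (bits : List ((ℕ × ℕ) × ℕ) → List Bool) core) ∧
    -- with `k` in binary, `augment` is computed by a Turing machine in polynomial time
    Nonempty (Turing.TM2ComputableInPolyTime
      (bits : (List (ℕ × ℕ) × List ℕ × List ℕ) × ℕ → List Bool)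
      (bits : List ((ℕ × ℕ) × ℕ) → List Bool)
      fun x => augment x.1.1 x.1.2.1 x.1.2.2 x.2) := by
  refine ⟨augment_isOpt, fun D S T k => rfl, H685STA.poly_core.toTM, Poly.toTM ?_⟩
  exact H685STA.poly_augment (Poly.fst (Poly.fst Poly.id))
    (Poly.fst (Poly.snd (Poly.fst Poly.id))) (Poly.snd (Poly.snd (Poly.fst Poly.id)))
    (Poly.snd Poly.id)

end Pool.Agent.Results.MP_d0804a_lc.StronglyPoly
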